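import Mathlib

/-!
# Zeros of Coulomb wave functions are not monotone in `L`

For `L > -1` and real `η`, let `F_{L,η}` be the regular Coulomb wave function and let
`ρ_{L,η,1} < ρ_{L,η,2} < ⋯` be its positive zeros.  We show that for **every** `η > 0`, every
`L ∈ (-1, -1 + min(1/4, η²/8)]` and every `n ≥ 1`

  `ρ_{-1/2,η,n} < ρ_{L,η,n}`,

although `L < -1/2`.  So `L ↦ ρ_{L,η,n}` is not increasing on `(-1, ∞)` for any `η > 0`, `n ≥ 1`.

Idea.  With `α = L + 1`, `F_{L,η}(ρ) = C ρ^α Φ_α(ρ)` where `Φ_α` is entire, real, `Φ_α(0) = 1` and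
`ρ Φ'' + 2α Φ' + (ρ - 2η) Φ = 0`.  On `[0, η]` one has `Φ_α(ρ) ≥ 1 + ηρ/(2α)`, which is large when
`α → 0`.  This makes the Wronskian of `ρ^{1/2} Φ_{1/2}` and `ρ^α Φ_α` nonnegative at `ρ = η`, and
from there on Sturm's comparison theorem applies, because `L(L+1) > -1/4`.
-/

set_option autoImplicit false
open Filter Topology

namespace Pool.Agent.Results.MP_75022b_an.NotMonotone

/-! ### coefficients -/

/-- Taylor coefficients of `e^{-iρ} M(α - iη, 2α, 2iρ)` -/
noncomputable def coef (α η : ℝ) : ℕ → ℝ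
  | 0 => 1
  | 1 => η / α
  | (k + 2) => (2 * η * coef α η (k + 1) - coef α η k) / ((k + 2) * (k + 1 + 2 * α))

lemma coef_bound {α : ℝ} (hα : 0 < α) (η : ℝ) :
    ∃ C D : ℝ, 0 ≤ C ∧ 0 ≤ D ∧ ∀ k, |coef α η k| ≤ C * (D ^ k / k.factorial) := by
  set D : ℝ := 4 * |η| + 2 with hD
  set C : ℝ := 1 + |η / α| with hC
  have hD2 : 2 ≤ D := by have := abs_nonneg η; linarith
  have hC1 : 1 ≤ C := by have := abs_nonneg (η / α); linarith
  refine ⟨C, D, by linarith, by linarith, ?_⟩
  have h2 : ∀ k, |coef α η k| ≤ C * (D ^ k / k.factorial) ∧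
      |coef α η (k + 1)| ≤ C * (D ^ (k + 1) / (k + 1).factorial) := by
    intro k
    induction k with
    | zero =>
      constructor
      · simp [coef]; exact hC1
      · simp only [coef, zero_add, pow_one, Nat.factorial_one, Nat.cast_one, div_one]
        have h0 := abs_nonneg (η / α)
        nlinarith
    | succ k ih =>
      refine ⟨ih.2, ?_⟩
      obtain ⟨ih0, ih1⟩ := ih
      have hk : (0 : ℝ) ≤ k := Nat.cast_nonneg k
      have e : k + 1 + 1 = k + 2 := rfl
      rw [e]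
      rw [coef]
      set F : ℝ := (k.factorial : ℝ) with hF
      have hFpos : 0 < F := by positivity
      have f1 : ((k + 1).factorial : ℝ) = (k + 1) * F := by
        rw [Nat.factorial_succ]; push_cast; rfl
      have f2 : ((k + 2).factorial : ℝ) = (k + 2) * ((k + 1) * F) := by
        rw [Nat.factorial_succ, Nat.factorial_succ]; push_cast; ring
      have hden : 0 < ((k : ℝ) + 2) * (k + 1 + 2 * α) := by positivity
      rw [abs_div, abs_of_pos hden, div_le_iff₀ hden]
      rw [f1] at ih1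
      rw [f2]
      set P : ℝ := C * (D ^ k / F) with hP
      have hPpos : 0 ≤ P := by positivity
      have e1 : C * (D ^ (k + 1) / ((k + 1) * F)) = P * D / (k + 1) := by
        rw [hP]; field_simp; ring
      have e2 : C * (D ^ (k + 2) / ((k + 2) * ((k + 1) * F))) * ((k + 2) * (k + 1 + 2 * α))
          = P * D ^ 2 * ((k + 1 + 2 * α) / (k + 1)) := by
        rw [hP]; field_simp; ring
      rw [e1] at ih1
      rw [e2]
      have h1 : |2 * η * coef α η (k + 1) - coef α η k| ≤ 2 * |η| * (P * D / (k + 1)) + P := by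
        calc |2 * η * coef α η (k + 1) - coef α η k|
            ≤ |2 * η * coef α η (k + 1)| + |coef α η k| := abs_sub _ _
          _ = 2 * |η| * |coef α η (k + 1)| + |coef α η k| := by
              rw [abs_mul, abs_mul]; norm_num
          _ ≤ 2 * |η| * (P * D / (k + 1)) + P := by
              gcongr
      have h3 : 2 * |η| * (P * D / (k + 1)) ≤ 2 * |η| * (P * D) := by
        gcongr
        apply div_le_self (by positivity)
        linarith
      have h4 : P * D ^ 2 ≤ P * D ^ 2 * ((k + 1 + 2 * α) / (k + 1)) := by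
        have : 1 ≤ (k + 1 + 2 * α) / ((k : ℝ) + 1) := by
          rw [le_div_iff₀ (by positivity)]; linarith
        nlinarith [mul_nonneg hPpos (sq_nonneg D)]
      have h5 : 2 * |η| * (P * D) + P ≤ P * D ^ 2 := by
        have : 2 * |η| * D + 1 ≤ D ^ 2 := by nlinarith [abs_nonneg η]
        nlinarith
      linarith
  exact fun k => (h2 k).1

/-- coefficient sequences of entire functions -/
def Entire (a : ℕ → ℝ) : Prop := ∀ r : ℝ, 0 ≤ r → Summable fun k => |a k| * r ^ k

lemma entire_coef {α : ℝ} (hα : 0 < α) (η : ℝ) : Entire (coef α η) := by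
  obtain ⟨C, D, hC, hD, h⟩ := coef_bound hα η
  intro r hr
  refine Summable.of_nonneg_of_le (fun k => by positivity) (fun k => ?_)
    ((Real.summable_pow_div_factorial (D * r)).mul_left C)
  calc |coef α η k| * r ^ k ≤ C * (D ^ k / k.factorial) * r ^ k := by gcongr; exact h k
    _ = C * ((D * r) ^ k / k.factorial) := by rw [mul_pow]; ring

/-- coefficients of the derivative -/
def dc (a : ℕ → ℝ) : ℕ → ℝ := fun k => (k + 1) * a (k + 1)

lemma Entire.dc {a : ℕ → ℝ} (ha : Entire a) : Entire (dc a) := by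
  intro r hr
  have h1 := ha (2 * (r + 1)) (by linarith)
  have h2 := (summable_nat_add_iff 1).2 h1
  refine Summable.of_nonneg_of_le (fun k => by positivity) (fun k => ?_) h2
  have h3 : ((k : ℝ) + 1) ≤ 2 ^ (k + 1) := by
    have := Nat.lt_two_pow_self (n := k + 1)
    exact_mod_cast this.le
  have h4 : r ^ k ≤ (r + 1) ^ (k + 1) := by
    calc r ^ k ≤ (r + 1) ^ k := by gcongr; linarith
      _ ≤ (r + 1) ^ (k + 1) := pow_le_pow_right₀ (by linarith) (Nat.le_succ k)
  unfold Pool.Agent.Results.MP_75022b_an.NotMonotone.dc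
  rw [abs_mul, abs_of_nonneg (by positivity : (0 : ℝ) ≤ k + 1), mul_pow]
  calc ((k : ℝ) + 1) * |a (k + 1)| * r ^ k ≤ 2 ^ (k + 1) * |a (k + 1)| * (r + 1) ^ (k + 1) := by
        gcongr
    _ = |a (k + 1)| * (2 ^ (k + 1) * (r + 1) ^ (k + 1)) := by ring

lemma Entire.summable {a : ℕ → ℝ} (ha : Entire a) (x : ℝ) : Summable fun k => a k * x ^ k := by
  apply Summable.of_norm
  have := ha |x| (abs_nonneg x)
  simpa [abs_mul, abs_pow] using this

/-- sum of the series -/
noncomputable def ser (a : ℕ → ℝ) (x : ℝ) : ℝ := ∑' k, a k * x ^ k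

lemma Entire.hasDerivAt {a : ℕ → ℝ} (ha : Entire a) (x : ℝ) :
    HasDerivAt (ser a) (ser (Pool.Agent.Results.MP_75022b_an.NotMonotone.dc a) x) x := by
  set R := |x| + 1 with hR
  have hR0 : 0 ≤ R := by positivity
  have key : HasDerivAt (fun z => ∑' k, a k * z ^ k) (∑' k, a k * (k * x ^ (k - 1))) x := by
    apply hasDerivAt_tsum_of_isPreconnected (g := fun k z => a k * z ^ k)
      (g' := fun k z => a k * (k * z ^ (k - 1))) (u := fun k => |a k| * (k * R ^ (k - 1)))
      (t := Metric.ball (0 : ℝ) R) (y₀ := 0)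
    · have h := ha.dc R hR0
      rw [← summable_nat_add_iff 1]
      refine h.congr fun k => ?_
      unfold Pool.Agent.Results.MP_75022b_an.NotMonotone.dc
      rw [abs_mul, abs_of_nonneg (by positivity : (0 : ℝ) ≤ k + 1), Nat.add_sub_cancel]
      push_cast
      ring
    · exact Metric.isOpen_ball
    · exact (convex_ball (0 : ℝ) R).isPreconnected
    · intro k y _
      exact (hasDerivAt_pow k y).const_mul (a k)
    · intro k y hy
      rw [Metric.mem_ball, dist_zero_right, Real.norm_eq_abs] at hy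
      rw [norm_mul, norm_mul, norm_pow, Real.norm_eq_abs, Real.norm_natCast, Real.norm_eq_abs]
      gcongr
    · rw [Metric.mem_ball, dist_self]; positivity
    · exact ha.summable 0
    · rw [Metric.mem_ball, dist_zero_right, Real.norm_eq_abs]; linarith
  have e : ∑' k, a k * (k * x ^ (k - 1)) = ser (Pool.Agent.Results.MP_75022b_an.NotMonotone.dc a) x := by
    have hs : Summable fun k : ℕ => a k * (k * x ^ (k - 1)) := by
      rw [← summable_nat_add_iff 1]
      refine (ha.dc.summable x).congr fun k => ?_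
      unfold Pool.Agent.Results.MP_75022b_an.NotMonotone.dc
      rw [Nat.add_sub_cancel]
      push_cast
      ring
    rw [hs.tsum_eq_zero_add]
    simp only [Nat.cast_zero, zero_mul, mul_zero, zero_add]
    unfold ser Pool.Agent.Results.MP_75022b_an.NotMonotone.dc
    congr 1; ext k
    rw [Nat.add_sub_cancel]
    push_cast
    ring
  rw [e] at key
  exact key


/-- the entire function `e^{-iρ} M(α - iη, 2α, 2iρ)` -/
noncomputable def Phi (α η : ℝ) : ℝ → ℝ := ser (coef α η)

noncomputable def Phi1 (α η : ℝ) : ℝ → ℝ := ser (dc (coef α η))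

noncomputable def Phi2 (α η : ℝ) : ℝ → ℝ := ser (dc (dc (coef α η)))

lemma hasDerivAt_Phi {α : ℝ} (hα : 0 < α) (η x : ℝ) : HasDerivAt (Phi α η) (Phi1 α η x) x :=
  (entire_coef hα η).hasDerivAt x

lemma hasDerivAt_Phi1 {α : ℝ} (hα : 0 < α) (η x : ℝ) : HasDerivAt (Phi1 α η) (Phi2 α η x) x :=
  (entire_coef hα η).dc.hasDerivAt x

lemma Phi_zero (α η : ℝ) : Phi α η 0 = 1 := by
  unfold Phi ser
  rw [tsum_eq_single 0]
  · simp [coef]
  · intro k hk; simp [hk]

lemma Phi_ode {α : ℝ} (hα : 0 < α) (η x : ℝ) :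
    x * Phi2 α η x + 2 * α * Phi1 α η x + (x - 2 * η) * Phi α η x = 0 := by
  set a := coef α η with ha
  have hE : Entire a := entire_coef hα η
  have h0 := (hE.summable x).hasSum
  have h1 := (hE.dc.summable x).hasSum
  have h2 := (hE.dc.dc.summable x).hasSum
  have h0' : HasSum (fun k => a (k + 1) * x ^ (k + 1)) (ser a x - a 0) := by
    have := (hasSum_nat_add_iff' 1).2 h0
    simpa [ser] using this
  have h1' : HasSum (fun k => dc a (k + 1) * x ^ (k + 1)) (ser (dc a) x - dc a 0) := by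
    have := (hasSum_nat_add_iff' 1).2 h1
    simpa [ser] using this
  have hsum := (((h2.mul_left x).add (h1'.mul_left (2 * α))).add (h0'.mul_left (-2 * η))).add
    (h0.mul_left x)
  have hz : (fun k => x * (dc (dc a) k * x ^ k) + 2 * α * (dc a (k + 1) * x ^ (k + 1))
      + -2 * η * (a (k + 1) * x ^ (k + 1)) + x * (a k * x ^ k)) = fun _ => 0 := by
    funext k
    have hrec : ((k : ℝ) + 2) * (k + 1 + 2 * α) * a (k + 2) = 2 * η * a (k + 1) - a k := by
      rw [ha, coef]
      have : ((k : ℝ) + 2) * (k + 1 + 2 * α) ≠ 0 := by positivity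
      field_simp
    unfold dc
    push_cast
    have e : x * (((k : ℝ) + 1) * ((k + 1 + 1) * a (k + 1 + 1)) * x ^ k)
        + 2 * α * ((k + 1 + 1) * a (k + 1 + 1) * x ^ (k + 1))
        + -2 * η * (a (k + 1) * x ^ (k + 1)) + x * (a k * x ^ k)
        = x ^ (k + 1) * (((k : ℝ) + 2) * (k + 1 + 2 * α) * a (k + 2)
          - (2 * η * a (k + 1) - a k)) := by
      have : a (k + 1 + 1) = a (k + 2) := rfl
      rw [this]; ring
    rw [e, hrec]; ring
  rw [hz] at hsum
  have hu := hsum.unique hasSum_zero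
  have ha0 : a 0 = 1 := by rw [ha]; simp [coef]
  have ha1 : dc a 0 = η / α := by unfold dc; rw [ha]; simp [coef]
  rw [ha0, ha1] at hu
  unfold Phi Phi1 Phi2
  have h3 : 2 * α * (η / α) = 2 * η := by field_simp
  change x * ser (dc (dc a)) x + 2 * α * (ser (dc a) x - η / α) + -2 * η * (ser a x - 1)
    + x * ser a x = 0 at hu
  rw [← ha]
  linear_combination hu + h3

/-! ### identification with Kummer's function -/

/-- Kummer's confluent hypergeometric function `M(a,b,z) = ∑_{k ≥ 0} (a)_k/(b)_k z^k/k!`, with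
`(a)_k` the rising factorial. -/
noncomputable def kummerM (a b z : ℂ) : ℂ :=
  ∑' k : ℕ, (ascPochhammer ℂ k).eval a / (ascPochhammer ℂ k).eval b * (z ^ k / (k.factorial : ℂ))

open PowerSeries in
lemma cauchy_coeff {α : ℝ} (hα : 0 < α) (η : ℝ) (n : ℕ) :
    ∑ p ∈ Finset.HasAntidiagonal.antidiagonal n, (Complex.I ^ p.1 / (p.1.factorial : ℂ)) * (coef α η p.2 : ℂ)
      = (ascPochhammer ℂ n).eval ((α : ℂ) - Complex.I * η) /
        (ascPochhammer ℂ n).eval (2 * (α : ℂ)) * ((2 * Complex.I) ^ n / (n.factorial : ℂ)) := by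
  set E : PowerSeries ℂ := PowerSeries.mk fun k => Complex.I ^ k / (k.factorial : ℂ) with hE
  set A : PowerSeries ℂ := PowerSeries.mk fun k => (coef α η k : ℂ) with hA
  have hcoef : ∀ n, coeff n (E * A) = ∑ p ∈ Finset.HasAntidiagonal.antidiagonal n,
      (Complex.I ^ p.1 / (p.1.factorial : ℂ)) * (coef α η p.2 : ℂ) := by
    intro n
    rw [PowerSeries.coeff_mul]
    simp [hE, hA]
  rw [← hcoef n]
  -- differential equations
  have dE : d⁄dX ℂ E = C Complex.I * E := by
    ext k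
    rw [PowerSeries.coeff_derivative, PowerSeries.coeff_C_mul]
    simp only [hE, PowerSeries.coeff_mk]
    rw [Nat.factorial_succ, pow_succ]
    push_cast
    have h1 : ((k : ℂ) + 1) ≠ 0 := by exact_mod_cast Nat.succ_ne_zero k
    have h2 : (k.factorial : ℂ) ≠ 0 := by exact_mod_cast k.factorial_ne_zero
    field_simp
  have dA : X * d⁄dX ℂ (d⁄dX ℂ A) + C (2 * (α : ℂ)) * d⁄dX ℂ A + (X - C (2 * (η : ℂ))) * A = 0 := by
    ext k
    rw [map_add, map_add, sub_mul, map_sub, PowerSeries.coeff_C_mul, PowerSeries.coeff_C_mul,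
      PowerSeries.coeff_derivative]
    rcases k with _ | k
    · simp only [PowerSeries.coeff_zero_X_mul, hA, PowerSeries.coeff_mk]
      have : (α : ℂ) ≠ 0 := by exact_mod_cast hα.ne'
      simp [coef]
      field_simp
      simp
    · rw [PowerSeries.coeff_succ_X_mul, PowerSeries.coeff_succ_X_mul,
        PowerSeries.coeff_derivative, PowerSeries.coeff_derivative]
      simp only [hA, PowerSeries.coeff_mk]
      have hrec : ((k : ℝ) + 2) * (k + 1 + 2 * α) * coef α η (k + 2)
          = 2 * η * coef α η (k + 1) - coef α η k := by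
        rw [coef]
        have : ((k : ℝ) + 2) * (k + 1 + 2 * α) ≠ 0 := by positivity
        field_simp
      have hrec' : ((k : ℂ) + 2) * (k + 1 + 2 * α) * (coef α η (k + 2) : ℂ)
          = 2 * η * (coef α η (k + 1) : ℂ) - coef α η k := by exact_mod_cast hrec
      have e : k + 1 + 1 = k + 2 := rfl
      rw [e]
      push_cast
      simp only [map_zero]
      linear_combination hrec'
  set G := E * A with hG
  set b : ℂ := 2 * (α : ℂ) with hb
  set a : ℂ := (α : ℂ) - Complex.I * η with haa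
  have dG : X * d⁄dX ℂ (d⁄dX ℂ G) + (C b - C (2 * Complex.I) * X) * d⁄dX ℂ G
      - C (2 * Complex.I * a) * G = 0 := by
    have e1 : d⁄dX ℂ G = C Complex.I * G + E * d⁄dX ℂ A := by
      rw [hG, Derivation.leibniz, dE]
      simp only [smul_eq_mul]
      ring
    have e2 : d⁄dX ℂ (d⁄dX ℂ G) = C Complex.I * d⁄dX ℂ G + C Complex.I * (E * d⁄dX ℂ A)
        + E * d⁄dX ℂ (d⁄dX ℂ A) := by
      have e3 : d⁄dX ℂ (E * d⁄dX ℂ A) = C Complex.I * (E * d⁄dX ℂ A)
          + E * d⁄dX ℂ (d⁄dX ℂ A) := by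
        rw [Derivation.leibniz, dE]
        simp only [smul_eq_mul]
        ring
      have e4 : d⁄dX ℂ (C Complex.I * G) = C Complex.I * d⁄dX ℂ G := by
        rw [Derivation.leibniz, PowerSeries.derivative_C]
        simp only [smul_eq_mul]
        ring
      conv_lhs => rw [e1]
      rw [map_add, e3, e4]
      ring
    have hCI : (C Complex.I : PowerSeries ℂ) * C Complex.I = -1 := by
      rw [← map_mul, Complex.I_mul_I]; simp
    have hCa : (C (2 * Complex.I * a) : PowerSeries ℂ) = C Complex.I * C b + C (2 * (η : ℂ)) := by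
      rw [← map_mul, ← map_add]
      congr 1
      rw [haa, hb]
      linear_combination (-2 * (η : ℂ)) * Complex.I_mul_I
    have hC2 : (C (2 * Complex.I) : PowerSeries ℂ) = 2 * C Complex.I := by
      rw [map_mul, map_ofNat]
    rw [hCa, hC2, e2, e1, hG]
    linear_combination E * dA - X * (E * A) * hCI
  have hrecG : ∀ k : ℕ, ((k : ℂ) + 1) * (k + b) * coeff (k + 1) G
      = 2 * Complex.I * (k + a) * coeff k G := by
    intro k
    have h := congrArg (coeff k) dG
    rw [map_sub, map_add, sub_mul, map_sub, PowerSeries.coeff_C_mul, mul_assoc (C (2 * Complex.I)),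
      PowerSeries.coeff_C_mul, PowerSeries.coeff_C_mul, PowerSeries.coeff_derivative] at h
    rcases k with _ | k
    · simp only [PowerSeries.coeff_zero_X_mul, map_zero] at h
      push_cast at h ⊢
      linear_combination h
    · rw [PowerSeries.coeff_succ_X_mul, PowerSeries.coeff_succ_X_mul,
        PowerSeries.coeff_derivative, PowerSeries.coeff_derivative,
        PowerSeries.coeff_derivative] at h
      simp only [map_zero] at h
      push_cast at h ⊢
      linear_combination h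
  induction n with
  | zero =>
    rw [hG, PowerSeries.coeff_mul]
    simp [hE, hA, coef]
  | succ n ih =>
    have hbn : b + n ≠ 0 := by
      rw [hb]
      have : (2 * α + n : ℝ) ≠ 0 := by positivity
      exact_mod_cast this
    have hn1 : ((n : ℂ) + 1) ≠ 0 := by exact_mod_cast Nat.succ_ne_zero n
    have h1 := hrecG n
    rw [ih] at h1
    rw [ascPochhammer_succ_eval, ascPochhammer_succ_eval, Nat.factorial_succ]
    have hpoch : ∀ m : ℕ, (ascPochhammer ℂ m).eval b ≠ 0 := by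
      intro m
      induction m with
      | zero => simp
      | succ m ihm =>
        rw [ascPochhammer_succ_eval]
        refine mul_ne_zero ihm ?_
        rw [hb]
        have : (2 * α + m : ℝ) ≠ 0 := by positivity
        exact_mod_cast this
    have hbn' := hpoch n
    have hf : (n.factorial : ℂ) ≠ 0 := by exact_mod_cast n.factorial_ne_zero
    have hbn2 : (n : ℂ) + b ≠ 0 := by rwa [add_comm]
    have h2 : coeff (n + 1) G = 2 * Complex.I * (n + a) *
        ((ascPochhammer ℂ n).eval a / (ascPochhammer ℂ n).eval b *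
          ((2 * Complex.I) ^ n / (n.factorial : ℂ))) / ((n + 1) * (n + b)) := by
      rw [eq_div_iff (mul_ne_zero hn1 hbn2)]
      linear_combination h1
    rw [h2]
    push_cast
    field_simp
    ring


lemma kummer_eq {α : ℝ} (hα : 0 < α) (η x : ℝ) :
    Complex.exp (-(Complex.I * x)) * kummerM ((α : ℂ) - Complex.I * η) (2 * α) (2 * Complex.I * x)
      = (Phi α η x : ℂ) := by
  have hE := entire_coef hα η
  -- the exponential series
  have hexp : HasSum (fun j : ℕ => Complex.I ^ j / (j.factorial : ℂ) * (x : ℂ) ^ j)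
      (Complex.exp (Complex.I * x)) := by
    have := NormedSpace.expSeries_div_hasSum_exp (𝔸 := ℂ) (Complex.I * x)
    rw [← Complex.exp_eq_exp_ℂ] at this
    refine this.congr_fun ?_
    intro j
    rw [mul_pow]; ring
  have hexpn : Summable (fun j : ℕ => ‖Complex.I ^ j / (j.factorial : ℂ) * (x : ℂ) ^ j‖) := by
    have := NormedSpace.norm_expSeries_div_summable (𝔸 := ℂ) (Complex.I * x)
    refine this.congr fun j => ?_
    congr 1
    rw [mul_pow]; ring
  have hA : HasSum (fun k : ℕ => (coef α η k : ℂ) * (x : ℂ) ^ k) (Phi α η x : ℂ) := by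
    have := (hE.summable x).hasSum
    have h2 := Complex.hasSum_ofReal.2 this
    refine h2.congr_fun ?_
    intro k; push_cast; ring
  have hAn : Summable (fun k : ℕ => ‖(coef α η k : ℂ) * (x : ℂ) ^ k‖) := by
    refine (hE |x| (abs_nonneg x)).congr fun k => ?_
    rw [norm_mul, norm_pow, Complex.norm_real, Complex.norm_real, Real.norm_eq_abs,
      Real.norm_eq_abs]
  have hprod := tsum_mul_tsum_eq_tsum_sum_antidiagonal_of_summable_norm hexpn hAn
  rw [hexp.tsum_eq, hA.tsum_eq] at hprod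
  have hk : kummerM ((α : ℂ) - Complex.I * η) (2 * α) (2 * Complex.I * x)
      = Complex.exp (Complex.I * x) * (Phi α η x : ℂ) := by
    rw [hprod]
    unfold kummerM
    congr 1; ext n
    have e : (ascPochhammer ℂ n).eval ((α : ℂ) - Complex.I * η) /
        (ascPochhammer ℂ n).eval (2 * (α : ℂ)) * ((2 * Complex.I * x) ^ n / (n.factorial : ℂ))
        = ((ascPochhammer ℂ n).eval ((α : ℂ) - Complex.I * η) /
        (ascPochhammer ℂ n).eval (2 * (α : ℂ)) * ((2 * Complex.I) ^ n / (n.factorial : ℂ)))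
          * (x : ℂ) ^ n := by
      rw [mul_pow]; ring
    rw [e, ← cauchy_coeff hα η n, Finset.sum_mul]
    refine Finset.sum_congr rfl ?_
    intro p hp
    rw [Finset.HasAntidiagonal.mem_antidiagonal] at hp
    rw [← hp, pow_add]
    ring
  rw [hk, ← mul_assoc, ← Complex.exp_add]
  simp

open Set

/-! ### Sturm comparison -/

lemma const_sign {f : ℝ → ℝ} {c d : ℝ} (hf : ContinuousOn f (Ioo c d))
    (h : ∀ x ∈ Ioo c d, f x ≠ 0) : (∀ x ∈ Ioo c d, 0 < f x) ∨ (∀ x ∈ Ioo c d, f x < 0) := by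
  by_contra hcon
  push Not at hcon
  obtain ⟨⟨x, hx, hx0⟩, ⟨y, hy, hy0⟩⟩ := hcon
  have := isPreconnected_Ioo.intermediate_value hx hy hf ⟨hx0, hy0⟩
  obtain ⟨z, hz, hz0⟩ := this
  exact h z hz hz0

lemma deriv_nonpos_right {v : ℝ → ℝ} {v' c d : ℝ} (hcd : c < d) (hv : HasDerivAt v v' d)
    (hvd : v d = 0) (hpos : ∀ x ∈ Ioo c d, 0 < v x) : v' ≤ 0 := by
  have h1 : Tendsto (slope v d) (𝓝[<] d) (𝓝 v') :=
    (hasDerivAt_iff_tendsto_slope.1 hv).mono_left (nhdsWithin_mono _ (fun x hx => ne_of_lt hx))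
  refine le_of_tendsto h1 ?_
  filter_upwards [Ioo_mem_nhdsLT hcd] with x hx
  rw [slope_def_field, hvd, sub_zero]
  exact div_nonpos_of_nonneg_of_nonpos (hpos x hx).le (by linarith [hx.2])

lemma deriv_nonneg_left {v : ℝ → ℝ} {v' c d : ℝ} (hcd : c < d) (hv : HasDerivAt v v' c)
    (hvc : v c = 0) (hpos : ∀ x ∈ Ioo c d, 0 < v x) : 0 ≤ v' := by
  have h1 : Tendsto (slope v c) (𝓝[>] c) (𝓝 v') :=
    (hasDerivAt_iff_tendsto_slope.1 hv).mono_left (nhdsWithin_mono _ (fun x hx => ne_of_gt hx))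
  refine ge_of_tendsto h1 ?_
  filter_upwards [Ioo_mem_nhdsGT hcd] with x hx
  rw [slope_def_field, hvc, sub_zero]
  exact div_nonneg (hpos x hx).le (by linarith [hx.1])

/-- `u` solves `u'' = - q u` on `[c, d]`, with derivative `u'`. -/
structure Sol (u u' q : ℝ → ℝ) (c d : ℝ) : Prop where
  d1 : ∀ x ∈ Icc c d, HasDerivAt u (u' x) x
  d2 : ∀ x ∈ Icc c d, HasDerivAt u' (-(q x * u x)) x

lemma Sol.neg {u u' q : ℝ → ℝ} {c d : ℝ} (h : Sol u u' q c d) :
    Sol (fun x => - u x) (fun x => - u' x) q c d where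
  d1 x hx := (h.d1 x hx).neg
  d2 x hx := by
    exact ((h.d2 x hx).neg).congr_deriv (by ring)

lemma sturm_core {u u' v v' qu qv : ℝ → ℝ} {c d : ℝ} (hcd : c < d) (hu : Sol u u' qu c d)
    (hv : Sol v v' qv c d) (hq : ∀ x ∈ Ioo c d, qv x < qu x) (hupos : ∀ x ∈ Ioo c d, 0 < u x)
    (hvpos : ∀ x ∈ Ioo c d, 0 < v x) (hW : 0 ≤ u c * v' c - u' c * v c) (hvd : v d = 0) :
    False := by
  have hWd : ∀ x ∈ Icc c d, HasDerivAt (fun x => u x * v' x - u' x * v x)
      ((qu x - qv x) * (u x * v x)) x := by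
    intro x hx
    have h := ((hu.d1 x hx).mul (hv.d2 x hx)).sub ((hu.d2 x hx).mul (hv.d1 x hx))
    exact h.congr_deriv (by ring)
  have hmono : StrictMonoOn (fun x => u x * v' x - u' x * v x) (Icc c d) := by
    apply strictMonoOn_of_deriv_pos (convex_Icc c d)
    · exact fun x hx => (hWd x hx).continuousAt.continuousWithinAt
    · intro x hx
      rw [interior_Icc] at hx
      rw [(hWd x (Ioo_subset_Icc_self hx)).deriv]
      exact mul_pos (by linarith [hq x hx]) (mul_pos (hupos x hx) (hvpos x hx))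
  have hlt := hmono (left_mem_Icc.2 hcd.le) (right_mem_Icc.2 hcd.le) hcd
  simp only at hlt
  rw [hvd, mul_zero, sub_zero] at hlt
  have h1 : 0 ≤ u d := by
    have hc : Tendsto u (𝓝[<] d) (𝓝 (u d)) :=
      (hu.d1 d (right_mem_Icc.2 hcd.le)).continuousAt.tendsto.mono_left nhdsWithin_le_nhds
    refine ge_of_tendsto hc ?_
    filter_upwards [Ioo_mem_nhdsLT hcd] with x hx
    exact (hupos x hx).le
  have h2 : v' d ≤ 0 := deriv_nonpos_right hcd (hv.d1 d (right_mem_Icc.2 hcd.le)) hvd hvpos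
  nlinarith

lemma sturm_between_pos {u u' v v' qu qv : ℝ → ℝ} {c d : ℝ} (hcd : c < d) (hu : Sol u u' qu c d)
    (hv : Sol v v' qv c d) (hq : ∀ x ∈ Ioo c d, qv x < qu x) (hupos : ∀ x ∈ Ioo c d, 0 < u x)
    (hvpos : ∀ x ∈ Ioo c d, 0 < v x) (hvc : v c = 0) (hvd : v d = 0) : False := by
  apply sturm_core hcd hu hv hq hupos hvpos _ hvd
  have h1 : 0 ≤ u c := by
    have hc : Tendsto u (𝓝[>] c) (𝓝 (u c)) :=
      (hu.d1 c (left_mem_Icc.2 hcd.le)).continuousAt.tendsto.mono_left nhdsWithin_le_nhds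
    refine ge_of_tendsto hc ?_
    filter_upwards [Ioo_mem_nhdsGT hcd] with x hx
    exact (hupos x hx).le
  have h2 : 0 ≤ v' c := deriv_nonneg_left hcd (hv.d1 c (left_mem_Icc.2 hcd.le)) hvc hvpos
  rw [hvc, mul_zero, sub_zero]
  exact mul_nonneg h1 h2

/-- Sturm comparison between two zeros. -/
lemma sturm_between {u u' v v' qu qv : ℝ → ℝ} {c d : ℝ} (hcd : c < d) (hu : Sol u u' qu c d)
    (hv : Sol v v' qv c d) (hq : ∀ x ∈ Ioo c d, qv x < qu x)
    (hv0 : ∀ x ∈ Ioo c d, v x ≠ 0) (hvc : v c = 0) (hvd : v d = 0) :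
    ∃ x ∈ Ioo c d, u x = 0 := by
  by_contra hno
  push Not at hno
  have cu : ContinuousOn u (Ioo c d) := fun x hx =>
    (hu.d1 x (Ioo_subset_Icc_self hx)).continuousAt.continuousWithinAt
  have cv : ContinuousOn v (Ioo c d) := fun x hx =>
    (hv.d1 x (Ioo_subset_Icc_self hx)).continuousAt.continuousWithinAt
  rcases const_sign cu hno with h1 | h1 <;> rcases const_sign cv hv0 with h2 | h2
  · exact sturm_between_pos hcd hu hv hq h1 h2 hvc hvd
  · exact sturm_between_pos hcd hu hv.neg hq h1 (fun x hx => by linarith [h2 x hx])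
      (by simp [hvc]) (by simp [hvd])
  · exact sturm_between_pos hcd hu.neg hv hq (fun x hx => by linarith [h1 x hx]) h2 hvc hvd
  · exact sturm_between_pos hcd hu.neg hv.neg hq (fun x hx => by linarith [h1 x hx])
      (fun x hx => by linarith [h2 x hx]) (by simp [hvc]) (by simp [hvd])

/-- Sturm comparison up to the first zero. -/
lemma sturm_first {u u' v v' qu qv : ℝ → ℝ} {c d : ℝ} (hcd : c < d) (hu : Sol u u' qu c d)
    (hv : Sol v v' qv c d) (hq : ∀ x ∈ Ioo c d, qv x < qu x)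
    (huc : 0 < u c) (hvc : 0 < v c) (hW : 0 ≤ u c * v' c - u' c * v c)
    (hv0 : ∀ x ∈ Ioo c d, v x ≠ 0) (hvd : v d = 0) :
    ∃ x ∈ Ioo c d, u x = 0 := by
  by_contra hno
  push Not at hno
  have cu : ContinuousOn u (Ioo c d) := fun x hx =>
    (hu.d1 x (Ioo_subset_Icc_self hx)).continuousAt.continuousWithinAt
  have cv : ContinuousOn v (Ioo c d) := fun x hx =>
    (hv.d1 x (Ioo_subset_Icc_self hx)).continuousAt.continuousWithinAt
  have key : ∀ f : ℝ → ℝ, ContinuousAt f c → 0 < f c → ¬ (∀ x ∈ Ioo c d, f x < 0) := by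
    intro f hf hfc hneg
    have h1 : ∀ᶠ x in 𝓝[>] c, 0 < f x :=
      (hf.eventually (lt_mem_nhds hfc)).filter_mono nhdsWithin_le_nhds
    have h2 : ∀ᶠ x in 𝓝[>] c, x ∈ Ioo c d := Ioo_mem_nhdsGT hcd
    obtain ⟨x, hx1, hx2⟩ := (h1.and h2).exists
    linarith [hneg x hx2]
  have hupos : ∀ x ∈ Ioo c d, 0 < u x := by
    rcases const_sign cu hno with h1 | h1
    · exact h1
    · exact absurd h1 (key u (hu.d1 c (left_mem_Icc.2 hcd.le)).continuousAt huc)
  have hvpos : ∀ x ∈ Ioo c d, 0 < v x := by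
    rcases const_sign cv hv0 with h1 | h1
    · exact h1
    · exact absurd h1 (key v (hv.d1 c (left_mem_Icc.2 hcd.le)).continuousAt hvc)
  exact sturm_core hcd hu hv hq hupos hvpos hW hvd

/-! ### enumeration of discrete sets -/

/-- a nonempty set with finite initial segments has a least element -/
lemma exists_least {S : Set ℝ} (hfin : ∀ R, (S ∩ Iic R).Finite) (hne : S.Nonempty) :
    ∃ x, IsLeast S x := by
  obtain ⟨s, hs⟩ := hne
  have h1 : (S ∩ Iic s).Nonempty := ⟨s, hs, le_refl s⟩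
  obtain ⟨x, hx, hmin⟩ := Set.exists_min_image (S ∩ Iic s) id (hfin s) h1
  refine ⟨x, hx.1, fun y hy => ?_⟩
  rcases le_or_gt y s with h | h
  · exact hmin y ⟨hy, h⟩
  · exact (hx.2 : x ≤ s).trans h.le

lemma exists_enum {S : Set ℝ} (hfin : ∀ R, (S ∩ Iic R).Finite) (hunb : ∀ R, ∃ x ∈ S, R < x) :
    ∃ z : ℕ → ℝ, StrictMono z ∧ range z = S ∧ (∀ s ∈ S, z 0 ≤ s) ∧
      ∀ n, ∀ s ∈ S, z n < s → z (n + 1) ≤ s := by
  have hnext : ∀ t : ℝ, ∃ x, IsLeast (S ∩ Ioi t) x := by
    intro t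
    apply exists_least
    · intro R
      exact (hfin R).subset (fun x hx => ⟨hx.1.1, hx.2⟩)
    · obtain ⟨x, hx, hx2⟩ := hunb t
      exact ⟨x, hx, hx2⟩
  choose nx hnx using hnext
  obtain ⟨x0, hx0⟩ := exists_least hfin (let ⟨x, hx, _⟩ := hunb 0; ⟨x, hx⟩)
  let z : ℕ → ℝ := fun n => Nat.rec x0 (fun _ t => nx t) n
  have hz0 : z 0 = x0 := rfl
  have hzs : ∀ n, z (n + 1) = nx (z n) := fun n => rfl
  have hmem : ∀ n, z n ∈ S := by
    intro n
    cases n with
    | zero => exact hx0.1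
    | succ n => rw [hzs]; exact (hnx (z n)).1.1
  have hmono : StrictMono z := by
    apply strictMono_nat_of_lt_succ
    intro n
    rw [hzs]
    exact (hnx (z n)).1.2
  have hstep : ∀ n, ∀ s ∈ S, z n < s → z (n + 1) ≤ s := by
    intro n s hs hlt
    rw [hzs]
    exact (hnx (z n)).2 ⟨hs, hlt⟩
  refine ⟨z, hmono, ?_, fun s hs => hx0.2 hs, hstep⟩
  apply Subset.antisymm
  · rintro _ ⟨n, rfl⟩; exact hmem n
  · intro s hs
    -- there is `n` with `s ≤ z n`
    have hex : ∃ n, s ≤ z n := by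
      by_contra hcon
      push Not at hcon
      have hinf : (range z).Infinite := Set.infinite_range_of_injective hmono.injective
      apply hinf
      apply (hfin s).subset
      rintro _ ⟨n, rfl⟩
      exact ⟨hmem n, (hcon n).le⟩
    obtain ⟨n, hn, hmin⟩ : ∃ n, s ≤ z n ∧ ∀ m, m < n → ¬ s ≤ z m := by
      classical
      exact ⟨Nat.find (p := fun n => s ≤ z n) hex, Nat.find_spec (p := fun n => s ≤ z n) hex,
        fun m hm => Nat.find_min (p := fun n => s ≤ z n) hex hm⟩
    rcases Nat.eq_zero_or_pos n with h0 | hpos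
    · refine ⟨0, le_antisymm (hx0.2 hs) ?_⟩
      rw [h0] at hn; exact hn
    · obtain ⟨m, hm⟩ : ∃ m, n = m + 1 := ⟨n - 1, by omega⟩
      have hlt : z m < s := by
        have := hmin m (by omega)
        linarith [not_le.1 this]
      refine ⟨m + 1, le_antisymm (hstep m s hs hlt) ?_⟩
      rw [hm] at hn; exact hn

/-- comparison of enumerations -/
lemma enum_lt {x y : ℕ → ℝ} {T : Set ℝ} (hy : StrictMono y) (hyr : range y = T)
    (h0 : ∃ t ∈ T, t < x 0) (hstep : ∀ n, ∃ t ∈ T, x n < t ∧ t < x (n + 1)) :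
    ∀ n, y n < x n := by
  intro n
  induction n with
  | zero =>
    obtain ⟨t, ht, htx⟩ := h0
    rw [← hyr] at ht
    obtain ⟨m, rfl⟩ := ht
    exact lt_of_le_of_lt (hy.monotone (Nat.zero_le m)) htx
  | succ n ih =>
    obtain ⟨t, ht, ht1, ht2⟩ := hstep n
    rw [← hyr] at ht
    obtain ⟨m, rfl⟩ := ht
    have : n < m := hy.lt_iff_lt.1 (ih.trans ht1)
    exact lt_of_le_of_lt (hy.monotone this) ht2


/-! ### The functions `x^α Φ(x)` -/

/-- `x^α Φ(x)` -/
noncomputable def wf (α η x : ℝ) : ℝ := x ^ α * Phi α η x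

/-- its derivative -/
noncomputable def wf1 (α η x : ℝ) : ℝ := α * x ^ (α - 1) * Phi α η x + x ^ α * Phi1 α η x

/-- the potential -/
noncomputable def qf (α η x : ℝ) : ℝ := 1 - 2 * η / x - α * (α - 1) / x ^ 2

lemma sol_wf {α : ℝ} (hα : 0 < α) (η : ℝ) {c d : ℝ} (hc : 0 < c) :
    Sol (wf α η) (wf1 α η) (qf α η) c d where
  d1 x hx := by
    have hx0 : 0 < x := lt_of_lt_of_le hc hx.1
    exact ((Real.hasDerivAt_rpow_const (Or.inl hx0.ne')).mul (hasDerivAt_Phi hα η x))
  d2 x hx := by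
    have hx0 : 0 < x := lt_of_lt_of_le hc hx.1
    have h1 : HasDerivAt (fun x : ℝ => α * x ^ (α - 1)) (α * ((α - 1) * x ^ (α - 1 - 1))) x :=
      (Real.hasDerivAt_rpow_const (Or.inl hx0.ne')).const_mul α
    have h2 : HasDerivAt (fun x : ℝ => x ^ α) (α * x ^ (α - 1)) x :=
      Real.hasDerivAt_rpow_const (Or.inl hx0.ne')
    have h := (h1.mul (hasDerivAt_Phi hα η x)).add (h2.mul (hasDerivAt_Phi1 hα η x))
    refine h.congr_deriv ?_
    have hode := Phi_ode hα η x
    have hP2 : Phi2 α η x = (-2 * α * Phi1 α η x - (x - 2 * η) * Phi α η x) / x := by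
      rw [eq_div_iff hx0.ne']; linarith
    rw [hP2, Real.rpow_sub_one hx0.ne' (α - 1), Real.rpow_sub_one hx0.ne' α]
    unfold qf wf
    field_simp
    ring

/-! ### bounds near the origin -/

lemma continuous_Phi {α : ℝ} (hα : 0 < α) (η : ℝ) : Continuous (Phi α η) :=
  continuous_iff_continuousAt.2 fun x => (hasDerivAt_Phi hα η x).continuousAt

lemma continuous_Phi1 {α : ℝ} (hα : 0 < α) (η : ℝ) : Continuous (Phi1 α η) :=
  continuous_iff_continuousAt.2 fun x => (hasDerivAt_Phi1 hα η x).continuousAt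

lemma hasDerivAt_h {α : ℝ} (hα : 0 < α) (η : ℝ) {x : ℝ} (hx : 0 < x) :
    HasDerivAt (fun x : ℝ => x ^ (2 * α) * Phi1 α η x)
      (x ^ (2 * α - 1) * ((2 * η - x) * Phi α η x)) x := by
  have h2 : HasDerivAt (fun x : ℝ => x ^ (2 * α)) ((2 * α) * x ^ (2 * α - 1)) x :=
    Real.hasDerivAt_rpow_const (Or.inl hx.ne')
  refine (h2.mul (hasDerivAt_Phi1 hα η x)).congr_deriv ?_
  have hode := Phi_ode hα η x
  have e : x ^ (2 * α) = x ^ (2 * α - 1) * x := by
    rw [Real.rpow_sub_one hx.ne']; field_simp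
  rw [e]
  linear_combination x ^ (2 * α - 1) * hode

/-- if `Φ > 0` on `[0, t)`, `t ≤ 2η`, then `Φ' ≥ 0` on `(0, t]` -/
lemma Phi1_nonneg {α : ℝ} (hα : 0 < α) {η t : ℝ} (htη : t ≤ 2 * η)
    (hpos : ∀ x, 0 ≤ x → x < t → 0 < Phi α η x) {x : ℝ} (hx : 0 < x) (hxt : x ≤ t) :
    0 ≤ Phi1 α η x := by
  have hmono : MonotoneOn (fun x : ℝ => x ^ (2 * α) * Phi1 α η x) (Icc 0 t) := by
    apply monotoneOn_of_deriv_nonneg (convex_Icc 0 t)
    · exact ((Real.continuous_rpow_const (by positivity)).mul (continuous_Phi1 hα η)).continuousOn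
    · intro y hy
      rw [interior_Icc] at hy
      exact (hasDerivAt_h hα η hy.1).differentiableAt.differentiableWithinAt
    · intro y hy
      rw [interior_Icc] at hy
      rw [(hasDerivAt_h hα η hy.1).deriv]
      have h1 := hpos y hy.1.le hy.2
      have h2 : 0 ≤ 2 * η - y := by linarith [hy.2]
      have h3 : 0 ≤ y ^ (2 * α - 1) := Real.rpow_nonneg hy.1.le _
      positivity
  have h := hmono (left_mem_Icc.2 (hx.le.trans hxt)) ⟨hx.le, hxt⟩ hx.le
  simp only [Real.zero_rpow (by positivity : 2 * α ≠ 0), zero_mul] at h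
  have h3 : 0 < x ^ (2 * α) := Real.rpow_pos_of_pos hx _
  by_contra hneg
  push Not at hneg
  nlinarith [mul_neg_of_pos_of_neg h3 hneg]

lemma Phi_ge_one_of {α : ℝ} (hα : 0 < α) {η t : ℝ} (htη : t ≤ 2 * η)
    (hpos : ∀ x, 0 ≤ x → x < t → 0 < Phi α η x) {x : ℝ} (hx : 0 ≤ x) (hxt : x ≤ t) :
    1 ≤ Phi α η x := by
  have hmono : MonotoneOn (Phi α η) (Icc 0 t) := by
    apply monotoneOn_of_deriv_nonneg (convex_Icc 0 t)
    · exact (continuous_Phi hα η).continuousOn
    · intro y _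
      exact (hasDerivAt_Phi hα η y).differentiableAt.differentiableWithinAt
    · intro y hy
      rw [interior_Icc] at hy
      rw [(hasDerivAt_Phi hα η y).deriv]
      exact Phi1_nonneg hα htη hpos hy.1 hy.2.le
  have h := hmono (left_mem_Icc.2 (hx.trans hxt)) ⟨hx, hxt⟩ hx
  rwa [Phi_zero] at h

lemma Phi_pos {α : ℝ} (hα : 0 < α) {η : ℝ} {x : ℝ} (hx : 0 ≤ x)
    (hxη : x ≤ 2 * η) : 0 < Phi α η x := by
  by_contra hcon
  push Not at hcon
  set K : Set ℝ := Icc 0 (2 * η) ∩ {x | Phi α η x ≤ 0} with hK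
  have hKc : IsCompact K := isCompact_Icc.inter_right
    (isClosed_le (continuous_Phi hα η) continuous_const)
  obtain ⟨t, ht, hmin⟩ := hKc.exists_isLeast ⟨x, ⟨hx, hxη⟩, hcon⟩
  have hpos : ∀ y, 0 ≤ y → y < t → 0 < Phi α η y := by
    intro y hy hyt
    by_contra hle
    push Not at hle
    have := hmin (show y ∈ K from ⟨⟨hy, hyt.le.trans ht.1.2⟩, hle⟩)
    linarith
  have h1 := Phi_ge_one_of hα ht.1.2 hpos ht.1.1 le_rfl
  have h2 : Phi α η t ≤ 0 := ht.2
  linarith

lemma Phi_ge_one {α : ℝ} (hα : 0 < α) {η : ℝ} {x : ℝ} (hx : 0 ≤ x)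
    (hxη : x ≤ 2 * η) : 1 ≤ Phi α η x :=
  Phi_ge_one_of hα le_rfl (fun _ hy hyt => Phi_pos hα hy hyt.le) hx hxη

lemma Phi_ge {α : ℝ} (hα : 0 < α) {η : ℝ} (hη : 0 < η) {x : ℝ} (hx : 0 ≤ x) (hxη : x ≤ η) :
    1 + η / (2 * α) * x ≤ Phi α η x := by
  -- first the derivative
  have hd : ∀ x, 0 < x → x ≤ η → η / (2 * α) ≤ Phi1 α η x := by
    intro x hx hxη
    have hder : ∀ y, 0 < y → HasDerivAt
        (fun x : ℝ => x ^ (2 * α) * Phi1 α η x - η / (2 * α) * x ^ (2 * α))
        (y ^ (2 * α - 1) * ((2 * η - y) * Phi α η y) - η / (2 * α) * (2 * α * y ^ (2 * α - 1)))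
        y := fun y hy =>
      (hasDerivAt_h hα η hy).sub
        ((Real.hasDerivAt_rpow_const (Or.inl hy.ne')).const_mul (η / (2 * α)))
    have hmono : MonotoneOn
        (fun x : ℝ => x ^ (2 * α) * Phi1 α η x - η / (2 * α) * x ^ (2 * α)) (Icc 0 η) := by
      apply monotoneOn_of_deriv_nonneg (convex_Icc 0 η)
      · exact (((Real.continuous_rpow_const (by positivity)).mul (continuous_Phi1 hα η)).sub
          ((Real.continuous_rpow_const (by positivity)).const_mul _)).continuousOn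
      · intro y hy
        rw [interior_Icc] at hy
        exact (hder y hy.1).differentiableAt.differentiableWithinAt
      · intro y hy
        rw [interior_Icc] at hy
        rw [(hder y hy.1).deriv]
        have h1 := Phi_ge_one hα hy.1.le (by linarith [hy.2] : y ≤ 2 * η)
        have h3 : 0 ≤ y ^ (2 * α - 1) := Real.rpow_nonneg hy.1.le _
        have e : y ^ (2 * α - 1) * ((2 * η - y) * Phi α η y)
            - η / (2 * α) * (2 * α * y ^ (2 * α - 1))
            = y ^ (2 * α - 1) * ((2 * η - y) * Phi α η y - η) := by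
          field_simp
        rw [e]
        apply mul_nonneg h3
        nlinarith [hy.2]
    have h := hmono (left_mem_Icc.2 hη.le) ⟨hx.le, hxη⟩ hx.le
    simp only [Real.zero_rpow (by positivity : 2 * α ≠ 0), zero_mul, mul_zero, sub_zero] at h
    have h3 : 0 < x ^ (2 * α) := Real.rpow_pos_of_pos hx _
    by_contra hneg
    push Not at hneg
    nlinarith [mul_pos h3 (sub_pos.2 hneg)]
  have hmono : MonotoneOn (fun x => Phi α η x - η / (2 * α) * x) (Icc 0 η) := by
    have hder : ∀ y, HasDerivAt (fun x => Phi α η x - η / (2 * α) * x)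
        (Phi1 α η y - η / (2 * α) * 1) y := fun y =>
      (hasDerivAt_Phi hα η y).sub ((hasDerivAt_id y).const_mul _)
    apply monotoneOn_of_deriv_nonneg (convex_Icc 0 η)
    · exact fun y _ => (hder y).continuousAt.continuousWithinAt
    · intro y _
      exact (hder y).differentiableAt.differentiableWithinAt
    · intro y hy
      rw [interior_Icc] at hy
      rw [(hder y).deriv]
      linarith [hd y hy.1 hy.2.le]
  have h := hmono (left_mem_Icc.2 hη.le) ⟨hx, hxη⟩ hx
  simp only [Phi_zero, mul_zero, sub_zero] at h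
  linarith


/-! ### The Wronskian at `η` -/

lemma wf_half_eq {α : ℝ} {η x : ℝ} (hx : 0 < x) :
    wf (1 / 2) η x * wf1 α η x - wf1 (1 / 2) η x * wf α η x
      = x ^ (1 / 2 + α) * ((Phi (1 / 2) η x * Phi1 α η x - Phi1 (1 / 2) η x * Phi α η x)
        - (1 / 2 - α) * (Phi (1 / 2) η x * Phi α η x / x)) := by
  unfold wf wf1
  rw [Real.rpow_sub_one hx.ne', Real.rpow_sub_one hx.ne', Real.rpow_add hx]
  field_simp
  ring

lemma wronskian_nonneg {α : ℝ} (hα : 0 < α) {η : ℝ} (hη : 0 < η) (h4 : α ≤ 1 / 4)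
    (h8 : α ≤ η ^ 2 / 8) :
    0 ≤ wf (1 / 2) η η * wf1 α η η - wf1 (1 / 2) η η * wf α η η := by
  set P := Phi (1 / 2) η with hP
  set Q := Phi α η with hQ
  set κ : ℝ := (1 / 2 - α) ^ 2 * (η / (2 * α)) / (1 / 2 + α) with hκ
  have hhalf : (0 : ℝ) < 1 / 2 := by norm_num
  -- the auxiliary function
  set T : ℝ → ℝ := fun x => (wf (1 / 2) η x * wf1 α η x - wf1 (1 / 2) η x * wf α η x)
    + (1 / 2 - α) * x ^ (α - 1 / 2) - κ * x ^ (1 / 2 + α) with hT
  have hder : ∀ x, 0 < x → HasDerivAt T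
      ((1 / 2 - α) ^ 2 * x ^ (α - 1 / 2 - 1) * (P x * Q x - 1)
        - κ * ((1 / 2 + α) * x ^ (1 / 2 + α - 1))) x := by
    intro x hx
    have su := sol_wf hhalf η (c := x) (d := x) hx
    have sv := sol_wf hα η (c := x) (d := x) hx
    have hxm : x ∈ Icc x x := ⟨le_rfl, le_rfl⟩
    have h := (((su.d1 x hxm).mul (sv.d2 x hxm)).sub ((su.d2 x hxm).mul (sv.d1 x hxm))).add
      ((Real.hasDerivAt_rpow_const (p := α - 1 / 2) (Or.inl hx.ne')).const_mul (1 / 2 - α))
    have h' := h.sub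
      ((Real.hasDerivAt_rpow_const (p := 1 / 2 + α) (Or.inl hx.ne')).const_mul κ)
    refine h'.congr_deriv ?_
    have e1 : x ^ (α - 1 / 2 - 1) = x ^ (1 / 2 + α) / x ^ 2 := by
      rw [← Real.rpow_natCast x 2, ← Real.rpow_sub hx]
      congr 1; push_cast; ring
    unfold wf wf1 qf
    rw [e1, Real.rpow_sub_one hx.ne', Real.rpow_add hx]
    rw [← hP, ← hQ]
    field_simp
    ring
  have hmono : MonotoneOn T (Ioc 0 η) := by
    apply monotoneOn_of_deriv_nonneg (convex_Ioc 0 η)
    · exact fun x hx => (hder x hx.1).continuousAt.continuousWithinAt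
    · intro x hx
      rw [interior_Ioc] at hx
      exact (hder x hx.1).differentiableAt.differentiableWithinAt
    · intro x hx
      rw [interior_Ioc] at hx
      rw [(hder x hx.1).deriv]
      have hP1 : 1 ≤ P x := Phi_ge_one hhalf hx.1.le (by linarith [hx.2])
      have hQ1 : 1 + η / (2 * α) * x ≤ Q x := Phi_ge hα hη hx.1.le hx.2.le
      have hPQ : η / (2 * α) * x ≤ P x * Q x - 1 := by
        have : 0 ≤ η / (2 * α) * x := by have := hx.1; positivity
        nlinarith
      have e1 : x ^ (1 / 2 + α - 1) = x ^ (α - 1 / 2 - 1) * x := by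
        rw [← Real.rpow_add_one hx.1.ne']
        congr 1; ring
      rw [e1]
      have h3 : 0 < x ^ (α - 1 / 2 - 1) := Real.rpow_pos_of_pos hx.1 _
      have e2 : (1 / 2 - α) ^ 2 * x ^ (α - 1 / 2 - 1) * (P x * Q x - 1)
          - κ * ((1 / 2 + α) * (x ^ (α - 1 / 2 - 1) * x))
          = (1 / 2 - α) ^ 2 * x ^ (α - 1 / 2 - 1) * ((P x * Q x - 1) - η / (2 * α) * x) := by
        rw [hκ]; field_simp
      rw [e2]
      have : 0 ≤ P x * Q x - 1 - η / (2 * α) * x := by linarith
      positivity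
  have hlim : Tendsto T (𝓝[>] 0) (𝓝 0) := by
    have heq : ∀ x ∈ Ioi (0 : ℝ), x ^ (1 / 2 + α) *
        ((P x * Phi1 α η x - Phi1 (1 / 2) η x * Q x)
          - (1 / 2 - α) * ((P x * Q x - 1) / x) - κ) = T x := by
      intro x hx
      have hx0 : 0 < x := hx
      rw [hT]
      simp only
      rw [wf_half_eq hx0]
      have e1 : x ^ (α - 1 / 2) = x ^ (1 / 2 + α) / x := by
        rw [← Real.rpow_sub_one hx0.ne']
        congr 1; ring
      rw [e1, ← hP, ← hQ]
      field_simp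
      ring
    have hd : HasDerivAt (fun x => P x * Q x) (Phi1 (1 / 2) η 0 * Q 0 + P 0 * Phi1 α η 0) 0 :=
      (hasDerivAt_Phi hhalf η 0).mul (hasDerivAt_Phi hα η 0)
    have hslope : Tendsto (fun x => (P x * Q x - 1) / x) (𝓝[>] 0)
        (𝓝 (Phi1 (1 / 2) η 0 * Q 0 + P 0 * Phi1 α η 0)) := by
      have h1 := (hasDerivAt_iff_tendsto_slope.1 hd).mono_left
        (nhdsWithin_mono _ (fun x (hx : x ∈ Ioi (0 : ℝ)) => ne_of_gt hx))
      refine h1.congr ?_
      intro x
      rw [slope_def_field]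
      simp only [hP, hQ, Phi_zero, sub_zero, mul_one]
    have hpow : Tendsto (fun x : ℝ => x ^ (1 / 2 + α)) (𝓝[>] 0) (𝓝 0) := by
      have h1 : Continuous (fun x : ℝ => x ^ (1 / 2 + α)) :=
        Real.continuous_rpow_const (by positivity)
      have h2 := h1.tendsto 0
      rw [Real.zero_rpow (by positivity)] at h2
      exact h2.mono_left nhdsWithin_le_nhds
    have hcont : Tendsto (fun x => P x * Phi1 α η x - Phi1 (1 / 2) η x * Q x) (𝓝[>] 0)
        (𝓝 (P 0 * Phi1 α η 0 - Phi1 (1 / 2) η 0 * Q 0)) := by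
      have : Continuous (fun x => P x * Phi1 α η x - Phi1 (1 / 2) η x * Q x) :=
        ((continuous_Phi hhalf η).mul (continuous_Phi1 hα η)).sub
          ((continuous_Phi1 hhalf η).mul (continuous_Phi hα η))
      exact (this.tendsto 0).mono_left nhdsWithin_le_nhds
    have hall := hpow.mul ((hcont.sub (hslope.const_mul (1 / 2 - α))).sub_const κ)
    rw [zero_mul] at hall
    exact hall.congr' (by
      filter_upwards [self_mem_nhdsWithin] with x hx
      exact heq x hx)
  have hTη : 0 ≤ T η := by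
    refine le_of_tendsto hlim ?_
    filter_upwards [Ioo_mem_nhdsGT hη] with x hx
    exact hmono ⟨hx.1, hx.2.le⟩ ⟨hη, le_rfl⟩ hx.2.le
  -- conclusion
  have e1 : η ^ (1 / 2 + α) = η ^ (α - 1 / 2) * η := by
    rw [← Real.rpow_add_one hη.ne']
    congr 1; ring
  have h3 : 0 < η ^ (α - 1 / 2) := Real.rpow_pos_of_pos hη _
  have hκη : (1 / 2 - α) ≤ κ * η := by
    rw [hκ]
    have h5 : 0 < 1 / 2 - α := by linarith
    have e : (1 / 2 - α) ^ 2 * (η / (2 * α)) / (1 / 2 + α) * η
        = (1 / 2 - α) * ((1 / 2 - α) * η ^ 2 / (2 * α * (1 / 2 + α))) := by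
      field_simp
    rw [e]
    have h6 : 1 ≤ (1 / 2 - α) * η ^ 2 / (2 * α * (1 / 2 + α)) := by
      rw [le_div_iff₀ (by positivity)]
      nlinarith [sq_nonneg η]
    nlinarith
  have h7 : T η = (wf (1 / 2) η η * wf1 α η η - wf1 (1 / 2) η η * wf α η η)
      + (1 / 2 - α) * η ^ (α - 1 / 2) - κ * η ^ (1 / 2 + α) := rfl
  rw [e1] at h7
  nlinarith [mul_nonneg h3.le (sub_nonneg.2 hκη)]


/-! ### zeros of `Φ` -/

lemma analyticOnNhd_Phi {α : ℝ} (hα : 0 < α) (η : ℝ) : AnalyticOnNhd ℝ (Phi α η) univ := by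
  set p := FormalMultilinearSeries.ofScalars ℝ (coef α η) with hp
  have hr : p.radius = ⊤ := by
    apply p.radius_eq_top_of_summable_norm
    intro r
    have := entire_coef hα η r r.2
    refine this.congr fun k => ?_
    rw [hp, FormalMultilinearSeries.ofScalars_norm, Real.norm_eq_abs]
  have h := p.hasFPowerSeriesOnBall (by rw [hr]; exact ENNReal.zero_lt_top)
  have h2 := h.analyticOnNhd
  rw [hr, Metric.eball_top] at h2
  have e : p.sum = Phi α η := by
    funext x
    have := FormalMultilinearSeries.ofScalars_sum_eq (E := ℝ) (coef α η) x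
    unfold Phi ser
    simpa [FormalMultilinearSeries.ofScalarsSum, smul_eq_mul, hp] using this
  rwa [e] at h2

lemma finite_zeros {α : ℝ} (hα : 0 < α) (η R : ℝ) :
    ({x : ℝ | 0 < x ∧ Phi α η x = 0} ∩ Iic R).Finite := by
  by_contra hinf
  have hsub : {x : ℝ | 0 < x ∧ Phi α η x = 0} ∩ Iic R ⊆ Icc 0 R :=
    fun x hx => ⟨hx.1.1.le, hx.2⟩
  obtain ⟨z, _, hz⟩ := Set.Infinite.exists_accPt_of_subset_isCompact hinf isCompact_Icc hsub
  rw [accPt_iff_frequently_nhdsNE] at hz
  have hfreq : ∃ᶠ y in 𝓝[≠] z, Phi α η y = 0 := hz.mono fun y hy => hy.1.2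
  have := (analyticOnNhd_Phi hα η).eqOn_zero_of_preconnected_of_frequently_eq_zero
    isPreconnected_univ (mem_univ z) hfreq
  have h0 := this (mem_univ 0)
  rw [Phi_zero] at h0
  simp at h0

lemma exists_zero_gt {α : ℝ} (hα : 0 < α) (η R : ℝ) :
    ∃ x ∈ {x : ℝ | 0 < x ∧ Phi α η x = 0}, R < x := by
  set M : ℝ := 2 * |η| + |α * (α - 1)| with hM
  have hM0 : 0 ≤ M := by positivity
  obtain ⟨k, hk⟩ := exists_nat_gt (max R (2 * M + 1))
  have hkR : R < k := lt_of_le_of_lt (le_max_left _ _) hk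
  have hkM : 2 * M + 1 < k := lt_of_le_of_lt (le_max_right _ _) hk
  have hk0 : (0 : ℝ) < k := by linarith
  have hpi : (3 : ℝ) < Real.pi := Real.pi_gt_three
  set c : ℝ := 2 * (k * Real.pi) with hc
  set d : ℝ := 2 * ((k + 1) * Real.pi) with hd
  have hck : (k : ℝ) < c := by rw [hc]; nlinarith
  have hcd : c < d := by rw [hc, hd]; nlinarith
  have hc0 : 0 < c := by linarith
  have hu := sol_wf hα η (c := c) (d := d) hc0
  have hv : Sol (fun x => Real.sin (x / 2)) (fun x => Real.cos (x / 2) / 2)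
      (fun _ => (1 / 4 : ℝ)) c d := by
    constructor
    · intro x _
      have h := (Real.hasDerivAt_sin (x / 2)).comp x ((hasDerivAt_id x).div_const 2)
      exact h.congr_deriv (by ring)
    · intro x _
      have h := ((Real.hasDerivAt_cos (x / 2)).comp x ((hasDerivAt_id x).div_const 2)).div_const 2
      exact h.congr_deriv (by ring)
  have hq : ∀ x ∈ Ioo c d, (1 / 4 : ℝ) < qf α η x := by
    intro x hx
    have hx1 : 2 * M + 1 < x := by linarith [hx.1]
    have hx0 : 0 < x := by linarith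
    have hx1' : 1 ≤ x := by linarith
    have h1 : 2 * η / x + α * (α - 1) / x ^ 2 ≤ M / x := by
      have a1 : 2 * η / x ≤ 2 * |η| / x := by gcongr; exact le_abs_self η
      have a2 : α * (α - 1) / x ^ 2 ≤ |α * (α - 1)| / x := by
        calc α * (α - 1) / x ^ 2 ≤ |α * (α - 1)| / x ^ 2 := by gcongr; exact le_abs_self _
          _ ≤ |α * (α - 1)| / x := by
              gcongr
              nlinarith
      calc 2 * η / x + α * (α - 1) / x ^ 2 ≤ 2 * |η| / x + |α * (α - 1)| / x := add_le_add a1 a2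
        _ = M / x := by rw [hM]; ring
    have h2 : M / x ≤ 1 / 2 := by
      rw [div_le_iff₀ hx0]; linarith
    unfold qf
    linarith
  have hsin : ∀ x ∈ Ioo c d, Real.sin (x / 2) ≠ 0 := by
    intro x hx h0
    rw [Real.sin_eq_zero_iff] at h0
    obtain ⟨m, hm⟩ := h0
    have h1 : (k : ℝ) * Real.pi < m * Real.pi := by rw [hm]; linarith [hx.1]
    have h2 : (m : ℝ) * Real.pi < (k + 1) * Real.pi := by rw [hm]; linarith [hx.2]
    have h3 : (k : ℝ) < m := lt_of_mul_lt_mul_right h1 Real.pi_pos.le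
    have h4 : (m : ℝ) < k + 1 := lt_of_mul_lt_mul_right h2 Real.pi_pos.le
    have h5 : (k : ℤ) < m := by exact_mod_cast h3
    have h6 : m < (k : ℤ) + 1 := by exact_mod_cast h4
    omega
  have hsc : Real.sin (c / 2) = 0 := by
    rw [show c / 2 = (k : ℝ) * Real.pi by rw [hc]; ring]
    exact Real.sin_nat_mul_pi k
  have hsd : Real.sin (d / 2) = 0 := by
    rw [show d / 2 = ((k + 1 : ℕ) : ℝ) * Real.pi by rw [hd]; push_cast; ring]
    exact Real.sin_nat_mul_pi (k + 1)
  obtain ⟨x, hx, hx0⟩ := sturm_between hcd hu hv hq hsin hsc hsd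
  have hxpos : 0 < x := by linarith [hx.1]
  refine ⟨x, ⟨hxpos, ?_⟩, by linarith [hx.1]⟩
  unfold wf at hx0
  rcases mul_eq_zero.1 hx0 with h | h
  · exact absurd h (Real.rpow_pos_of_pos hxpos _).ne'
  · exact h

/-! ### Coulomb wave functions -/

/-- The normalising constant `C_L(η) = 2^L e^{-πη/2} |Γ(L+1+iη)| / Γ(2L+2)`. -/
noncomputable def coulombC (L η : ℝ) : ℝ :=
  2 ^ L * Real.exp (-(Real.pi * η / 2)) * ‖Complex.Gamma (L + 1 + Complex.I * η)‖ /
    Real.Gamma (2 * L + 2)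

/-- The regular Coulomb wave function
`F_{L,η}(ρ) = C_L(η) ρ^{L+1} e^{-iρ} M(L+1-iη, 2L+2, 2iρ)`. -/
noncomputable def coulombF (L η ρ : ℝ) : ℂ :=
  (coulombC L η : ℂ) * ((ρ ^ (L + 1) : ℝ) : ℂ) * Complex.exp (-(Complex.I * ρ)) *
    kummerM (L + 1 - Complex.I * η) (2 * L + 2) (2 * Complex.I * ρ)

/-- `z` is the increasing enumeration of the positive zeros of `F_{L,η}`, that is
`z n = ρ_{L,η,n+1}` for `n = 0, 1, 2, …`. -/
def EnumeratesZeros (L η : ℝ) (z : ℕ → ℝ) : Prop :=
  StrictMono z ∧ Set.range z = {ρ : ℝ | 0 < ρ ∧ coulombF L η ρ = 0}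

lemma coulombC_pos {L : ℝ} (hL : -1 < L) (η : ℝ) : 0 < coulombC L η := by
  unfold coulombC
  have h1 : Complex.Gamma (L + 1 + Complex.I * η) ≠ 0 := by
    apply Complex.Gamma_ne_zero_of_re_pos
    simp
    linarith
  have h2 : 0 < Real.Gamma (2 * L + 2) := Real.Gamma_pos_of_pos (by linarith)
  have h3 : 0 < ‖Complex.Gamma (L + 1 + Complex.I * η)‖ := norm_pos_iff.2 h1
  positivity

/-- `F_{L,η}` is real valued on `(0,∞)` and equals `C_L(η) ρ^{L+1} Φ(ρ)`. -/
lemma coulombF_eq {L : ℝ} (hL : -1 < L) (η ρ : ℝ) :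
    coulombF L η ρ = ((coulombC L η * (ρ ^ (L + 1) * Phi (L + 1) η ρ) : ℝ) : ℂ) := by
  have h := kummer_eq (α := L + 1) (by linarith) η ρ
  have e : (2 * ((L + 1 : ℝ) : ℂ)) = 2 * (L : ℂ) + 2 := by push_cast; ring
  rw [e] at h
  push_cast at h
  unfold coulombF
  rw [mul_assoc ((coulombC L η : ℂ) * ((ρ ^ (L + 1) : ℝ) : ℂ)), h]
  push_cast
  ring

lemma zeros_eq {L : ℝ} (hL : -1 < L) (η : ℝ) :
    {ρ : ℝ | 0 < ρ ∧ coulombF L η ρ = 0} = {ρ : ℝ | 0 < ρ ∧ Phi (L + 1) η ρ = 0} := by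
  ext ρ
  simp only [mem_ofPred_eq]
  refine and_congr_right fun hρ => ?_
  rw [coulombF_eq hL, Complex.ofReal_eq_zero]
  have h1 := (coulombC_pos hL η).ne'
  have h2 := (Real.rpow_pos_of_pos hρ (L + 1)).ne'
  simp [h1, h2]

/-- For all `L > -1` and all `η`, the positive zeros of `F_{L,η}` can be enumerated. -/
theorem exists_enumeratesZeros {L : ℝ} (hL : -1 < L) (η : ℝ) : ∃ z, EnumeratesZeros L η z := by
  have hα : 0 < L + 1 := by linarith
  obtain ⟨z, hz1, hz2, _, _⟩ := exists_enum (finite_zeros hα η) (exists_zero_gt hα η)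
  exact ⟨z, hz1, by rw [hz2, zeros_eq hL]⟩

/-- The enumeration is unique. -/
theorem enumeratesZeros_unique {L η : ℝ} {z z' : ℕ → ℝ} (h : EnumeratesZeros L η z)
    (h' : EnumeratesZeros L η z') : z = z' :=
  (StrictMono.range_inj h.1 h'.1).1 (h.2.trans h'.2.symm)

/-- **Monotonicity in `L` of the zeros of Coulomb wave functions fails for every `η > 0` and every
index.**  For `η > 0` and `-1 < L ≤ -1 + min (1/4) (η²/8)` (so that `L < -1/2`), let `x` and `y`
be the increasing enumerations of the positive zeros of `F_{L,η}` and of `F_{-1/2,η}`, that is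
`x n = ρ_{L,η,n+1}` and `y n = ρ_{-1/2,η,n+1}`.  Then `y n < x n` for all `n`. -/
theorem result (η : ℝ) (hη : 0 < η) (L : ℝ) (hL : -1 < L)
    (hL' : L ≤ -1 + min (1 / 4) (η ^ 2 / 8)) :
    L < -1 / 2 ∧ ∃ x y : ℕ → ℝ,
      EnumeratesZeros L η x ∧ EnumeratesZeros (-1 / 2) η y ∧ ∀ n, y n < x n := by
  refine ⟨by have := min_le_left (1 / 4 : ℝ) (η ^ 2 / 8); linarith, ?_⟩
  set α := L + 1 with hαdef
  have hα : 0 < α := by linarith
  have h4 : α ≤ 1 / 4 := by have := min_le_left (1 / 4 : ℝ) (η ^ 2 / 8); linarith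
  have h8 : α ≤ η ^ 2 / 8 := by have := min_le_right (1 / 4 : ℝ) (η ^ 2 / 8); linarith
  have hhalf : (0 : ℝ) < 1 / 2 := by norm_num
  have hL2 : (-1 : ℝ) < -1 / 2 := by norm_num
  have ehalf : (-1 / 2 : ℝ) + 1 = 1 / 2 := by norm_num
  obtain ⟨x, hx1, hx2, hx3, hx4⟩ := exists_enum (finite_zeros hα η) (exists_zero_gt hα η)
  obtain ⟨y, hy1, hy2, hy3, hy4⟩ := exists_enum (finite_zeros hhalf η) (exists_zero_gt hhalf η)
  refine ⟨x, y, ⟨hx1, by rw [hx2, zeros_eq hL]⟩, ⟨hy1, by rw [hy2, zeros_eq hL2, ehalf]⟩, ?_⟩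
  have hxmem : ∀ n, 0 < x n ∧ Phi α η (x n) = 0 := fun n => by
    have : x n ∈ range x := mem_range_self n
    rwa [hx2] at this
  have hxη : η < x 0 := by
    by_contra hle
    push Not at hle
    have := Phi_pos hα (hxmem 0).1.le (by linarith : x 0 ≤ 2 * η)
    linarith [(hxmem 0).2]
  have hq : ∀ z : ℝ, 0 < z → qf α η z < qf (1 / 2) η z := by
    intro z hz
    unfold qf
    have h5 : 0 < z ^ 2 := by positivity
    have h6 : (1 / 2 * (1 / 2 - 1) : ℝ) / z ^ 2 < α * (α - 1) / z ^ 2 := by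
      apply div_lt_div_of_pos_right _ h5
      nlinarith [sq_nonneg (α - 1 / 2), mul_pos (by linarith : (0 : ℝ) < 1 / 2 - α)
        (by linarith : (0 : ℝ) < 1 / 2 - α)]
    linarith
  have hwz : ∀ z, wf α η z = 0 → 0 < z → Phi α η z = 0 := by
    intro z h hz
    unfold wf at h
    rcases mul_eq_zero.1 h with h | h
    · exact absurd h (Real.rpow_pos_of_pos hz _).ne'
    · exact h
  have hwz' : ∀ z, wf (1 / 2) η z = 0 → 0 < z → Phi (1 / 2) η z = 0 := by
    intro z h hz
    unfold wf at h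
    rcases mul_eq_zero.1 h with h | h
    · exact absurd h (Real.rpow_pos_of_pos hz _).ne'
    · exact h
  have hwx : ∀ n, wf α η (x n) = 0 := fun n => by
    unfold wf; rw [(hxmem n).2, mul_zero]
  apply enum_lt hy1 hy2
  · obtain ⟨t, ht, ht0⟩ := sturm_first hxη (sol_wf hhalf η hη) (sol_wf hα η hη)
      (fun z hz => hq z (hη.trans hz.1))
      (mul_pos (Real.rpow_pos_of_pos hη _) (Phi_pos hhalf hη.le (by linarith)))
      (mul_pos (Real.rpow_pos_of_pos hη _) (Phi_pos hα hη.le (by linarith)))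
      (wronskian_nonneg hα hη h4 h8)
      (by
        intro z hz h0
        have hz0 : 0 < z := hη.trans hz.1
        have := hx3 z ⟨hz0, hwz z h0 hz0⟩
        linarith [hz.2])
      (hwx 0)
    exact ⟨t, ⟨hη.trans ht.1, hwz' t ht0 (hη.trans ht.1)⟩, ht.2⟩
  · intro n
    have hn0 : 0 < x n := (hxmem n).1
    obtain ⟨t, ht, ht0⟩ := sturm_between (hx1 (Nat.lt_succ_self n)) (sol_wf hhalf η hn0)
      (sol_wf hα η hn0) (fun z hz => hq z (hn0.trans hz.1))
      (by
        intro z hz h0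
        have hz0 : 0 < z := hn0.trans hz.1
        have := hx4 n z ⟨hz0, hwz z h0 hz0⟩ hz.1
        linarith [hz.2])
      (hwx n) (hwx (n + 1))
    exact ⟨t, ⟨hn0.trans ht.1, hwz' t ht0 (hn0.trans ht.1)⟩, ht.1, ht.2⟩

end Pool.Agent.Results.MP_75022b_an.NotMonotone
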